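import Mathlib

/-!
# An invariant nonnegative subspace of a quaternion plus-matrix without maximal extension

`H = diag (1, -1, 0)`, `A x = (2 x₃, x₃, 0)`, `M₀ = span (2, -1, 0)`.
-/

set_option autoImplicit false

namespace Pool.Agent.Results.MP_7dcdb2_al.NoExtension

open Matrix Quaternion Module

/-- The right vector space of columns of length `n` over the real quaternions. Its scalars act from
the right, that is, it is a module over the opposite ring of the quaternions. -/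
abbrev Col (n : ℕ) := Fin n → ℍ[ℝ]

/-- Right subspaces of the space of columns. -/
abbrev RSub (n : ℕ) := Submodule (ℍ[ℝ])ᵐᵒᵖ (Col n)

/-- The form `[x, y] = y^* H x`. -/
noncomputable def form {n : ℕ} (H : Matrix (Fin n) (Fin n) ℍ[ℝ]) (x y : Col n) : ℍ[ℝ] :=
  star y ⬝ᵥ (H *ᵥ x)

/-- `M` is `H`-nonnegative: `[x, x] ≥ 0` for all `x ∈ M` (for hermitian `H` the quaternion
`[x, x]` is real, see `form_real`). -/
def Nonneg {n : ℕ} (H : Matrix (Fin n) (Fin n) ℍ[ℝ]) (M : RSub n) : Prop :=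
  ∀ x ∈ M, 0 ≤ (form H x x).re

/-- `A` is an `H`-plus-matrix. -/
def Plus {n : ℕ} (H A : Matrix (Fin n) (Fin n) ℍ[ℝ]) : Prop :=
  ∀ x : Col n, 0 ≤ (form H x x).re → 0 ≤ (form H (A *ᵥ x) (A *ᵥ x)).re

/-- `M` is `A`-invariant. -/
def Invariant {n : ℕ} (A : Matrix (Fin n) (Fin n) ℍ[ℝ]) (M : RSub n) : Prop :=
  ∀ x ∈ M, A *ᵥ x ∈ M

/-- `In₊(H) = p`, `In₋(H) = q`, `In₀(H) = ν`: for some invertible `S` the matrix `S^* H S` is
`I_p ⊕ (-I_q) ⊕ 0_ν`. -/
def Inertia {n : ℕ} (H : Matrix (Fin n) (Fin n) ℍ[ℝ]) (p q ν : ℕ) : Prop :=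
  p + q + ν = n ∧ ∃ S : Matrix (Fin n) (Fin n) ℍ[ℝ], IsUnit S ∧
    Sᴴ * H * S = Matrix.diagonal (fun i : Fin n =>
      if (i : ℕ) < p then (1 : ℍ[ℝ]) else if (i : ℕ) < p + q then -1 else 0)

/-- Sanity check: for every hermitian matrix the values `[x, x]` are real. -/
theorem form_real {n : ℕ} (H : Matrix (Fin n) (Fin n) ℍ[ℝ]) (hH : H.IsHermitian) (x : Col n) :
    form H x x = ((form H x x).re : ℍ[ℝ]) := by
  have h : star (form H x x) = form H x x := by
    unfold form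
    conv_lhs => rw [← Matrix.star_dotProduct_star, star_star, Matrix.star_mulVec, hH.eq,
      ← Matrix.dotProduct_mulVec]
  exact Quaternion.star_eq_self.1 h

/-- the matrix `H` -/
noncomputable def HH : Matrix (Fin 3) (Fin 3) ℍ[ℝ] := !![1, 0, 0; 0, -1, 0; 0, 0, 0]

/-- the matrix `A` -/
noncomputable def AA : Matrix (Fin 3) (Fin 3) ℍ[ℝ] := !![0, 0, 2; 0, 0, 1; 0, 0, 0]

theorem form_HH (x : Col 3) : form HH x x = star (x 0) * x 0 - star (x 1) * x 1 := by
  simp [form, HH, Matrix.mulVec, dotProduct, Fin.sum_univ_three, sub_eq_add_neg]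

theorem form_HH_re (x : Col 3) :
    (form HH x x).re = Quaternion.normSq (x 0) - Quaternion.normSq (x 1) := by
  rw [form_HH, Quaternion.star_mul_self, Quaternion.star_mul_self]
  simp

theorem AA_mulVec (x : Col 3) : AA *ᵥ x = ![2 * x 2, x 2, 0] := by
  funext i
  fin_cases i <;> simp [AA, Matrix.mulVec, dotProduct, Fin.sum_univ_three]

theorem normSq_two_mul (a : ℍ[ℝ]) : Quaternion.normSq (2 * a) = 4 * Quaternion.normSq a := by
  rw [map_mul]
  have : Quaternion.normSq (2 : ℍ[ℝ]) = 4 := by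
    have : (2 : ℍ[ℝ]) = ((2 : ℝ) : ℍ[ℝ]) := by norm_cast
    rw [this, Quaternion.normSq_coe]; norm_num
  rw [this]

/-- the identification of the quaternions, as a right vector space, with the scalars -/
noncomputable def opEquiv : (ℍ[ℝ])ᵐᵒᵖ ≃ₗ[(ℍ[ℝ])ᵐᵒᵖ] ℍ[ℝ] where
  toFun x := x.unop
  invFun x := MulOpposite.op x
  left_inv _ := rfl
  right_inv _ := rfl
  map_add' _ _ := rfl
  map_smul' _ _ := rfl

theorem finrank_H : finrank (ℍ[ℝ])ᵐᵒᵖ ℍ[ℝ] = 1 := by
  rw [← opEquiv.finrank_eq, finrank_self]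

/-- the last coordinate -/
noncomputable def last : Col 3 →ₗ[(ℍ[ℝ])ᵐᵒᵖ] ℍ[ℝ] := LinearMap.proj 2

instance : Module.Finite (ℍ[ℝ])ᵐᵒᵖ ℍ[ℝ] := Module.Finite.equiv opEquiv

theorem finrank_ker_last : finrank (ℍ[ℝ])ᵐᵒᵖ (LinearMap.ker last) = 2 := by
  have h1 := LinearMap.finrank_range_add_finrank_ker last
  have h2 : LinearMap.range last = ⊤ := LinearMap.range_eq_top.2 (fun y => ⟨fun _ => y, rfl⟩)
  rw [h2, finrank_top, finrank_H, Module.finrank_pi_fintype] at h1
  simp [finrank_H] at h1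
  omega

/-- There are a singular hermitian quaternion matrix `H`, an `H`-plus-matrix `A` and an
`A`-invariant `H`-nonnegative subspace `M₀` such that no `A`-invariant `H`-nonnegative subspace
containing `M₀` has dimension `In₊(H) + In₀(H)`. -/
theorem result : ∃ (n : ℕ) (H A : Matrix (Fin n) (Fin n) ℍ[ℝ]) (M₀ : RSub n) (p q ν : ℕ),
    H.IsHermitian ∧ ¬ IsUnit H ∧ Inertia H p q ν ∧ Plus H A ∧ Invariant A M₀ ∧ Nonneg H M₀ ∧
      ¬ ∃ M : RSub n, M₀ ≤ M ∧ Invariant A M ∧ Nonneg H M ∧ finrank (ℍ[ℝ])ᵐᵒᵖ M = p + ν := by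
  refine ⟨3, HH, AA, Submodule.span _ {![2, -1, 0]}, 1, 1, 1, ?_, ?_, ⟨rfl, 1, isUnit_one, ?_⟩,
    ?_, ?_, ?_, ?_⟩
  · funext i j
    fin_cases i <;> fin_cases j <;> simp [HH]
  · rintro ⟨u, hu⟩
    have h1 : (HH * (↑u⁻¹ : Matrix (Fin 3) (Fin 3) ℍ[ℝ])) 2 2 = 1 := by
      rw [← hu]; simp
    simp [HH, Matrix.mul_apply, Fin.sum_univ_three] at h1
  · funext i j
    fin_cases i <;> fin_cases j <;> simp [HH]
  · intro x _
    rw [form_HH_re, AA_mulVec]
    simp only [Matrix.cons_val_zero, Matrix.cons_val_one]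
    rw [normSq_two_mul]
    have := Quaternion.normSq_nonneg (a := x 2)
    linarith
  · intro x hx
    obtain ⟨c, rfl⟩ := Submodule.mem_span_singleton.1 hx
    have : AA *ᵥ (c • ![2, -1, 0] : Col 3) = 0 := by
      rw [AA_mulVec]
      funext i
      fin_cases i <;> simp
    rw [this]
    exact Submodule.zero_mem _
  · intro x hx
    obtain ⟨c, rfl⟩ := Submodule.mem_span_singleton.1 hx
    rw [form_HH_re]
    have h0 : (c • ![2, -1, 0] : Col 3) 0 = 2 * c.unop := rfl
    have h1 : (c • ![2, -1, 0] : Col 3) 1 = -c.unop := by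
      simp [MulOpposite.smul_eq_mul_unop]
    rw [h0, h1, normSq_two_mul, Quaternion.normSq_neg]
    have := Quaternion.normSq_nonneg (a := c.unop)
    linarith
  · rintro ⟨M, hM, hinv, hnn, hfr⟩
    have hw : (![2, -1, 0] : Col 3) ∈ M := hM (Submodule.mem_span_singleton_self _)
    by_cases hall : ∀ x ∈ M, x 2 = 0
    · have hle : M ≤ LinearMap.ker last := fun x hx => hall x hx
      have heq : M = LinearMap.ker last :=
        Submodule.eq_of_le_of_finrank_eq hle (by rw [hfr, finrank_ker_last])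
      have h1 : (![0, 1, 0] : Col 3) ∈ M := by
        rw [heq]; exact rfl
      have h2 := hnn _ h1
      rw [form_HH_re] at h2
      simp at h2
      linarith
    · push Not at hall
      obtain ⟨x, hx, hx2⟩ := hall
      have h1 := hinv x hx
      rw [AA_mulVec] at h1
      have h2 : (![2, 1, 0] : Col 3) ∈ M := by
        have h3 := M.smul_mem (MulOpposite.op (x 2)⁻¹) h1
        have h4 : (MulOpposite.op (x 2)⁻¹ • ![2 * x 2, x 2, 0] : Col 3) = ![2, 1, 0] := by
          funext i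
          fin_cases i
          · simp [mul_assoc, mul_inv_cancel₀ hx2]
          · simp [mul_inv_cancel₀ hx2]
          · simp
        rwa [h4] at h3
      have h5 := hnn _ (M.sub_mem h2 hw)
      rw [form_HH_re] at h5
      have e0 : ((![2, 1, 0] : Col 3) - (![2, -1, 0] : Col 3) : Col 3) 0 = 0 := by simp
      have e1 : ((![2, 1, 0] : Col 3) - (![2, -1, 0] : Col 3) : Col 3) 1 = 2 * 1 := by
        simp; norm_num
      rw [e0, e1, normSq_two_mul] at h5
      simp at h5
      linarith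

end Pool.Agent.Results.MP_7dcdb2_al.NoExtension
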